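import Pool.Agent.Helper98.CopG.Neg

/-!
Copolymer at a selective interface: the smoothing exponent is larger than two.

For every `α > 0`, every excursion law `κ` on the positive integers with
`n^{1+α} κ(n) → cK > 0` and standard Gaussian charges there is a coupling `λ > 0` and an exponent
`γ > 2` with `f(λ, h_c(λ) - δ) ≤ C δ^γ` for all `δ ∈ (0,1)`.
-/

set_option autoImplicit false
open MeasureTheory ProbabilityTheory Filter Topology

namespace Pool.Agent.Results.MP_fd21e9_pr.GaussianSmoothing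

/-- law of one (gap, sign) pair: gap with law `κ`, sign uniform on `{false, true}` -/
noncomputable def stepLaw (κ : PMF ℕ) : Measure (ℕ × Bool) :=
  κ.toMeasure.prod (PMF.uniformOfFintype Bool).toMeasure

instance instStepLaw (κ : PMF ℕ) : IsProbabilityMeasure (stepLaw κ) := by
  unfold stepLaw; infer_instance

/-- law of the i.i.d. sequence of (gap, sign) pairs -/
noncomputable def pathMeasure (κ : PMF ℕ) : Measure (ℕ → ℕ × Bool) :=
  Measure.infinitePi (fun _ : ℕ => stepLaw κ)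

/-- renewal points `τ_0 = 0`, `τ_j` = sum of the first `j` gaps -/
def tau (x : ℕ → ℕ × Bool) (j : ℕ) : ℕ := ∑ i ∈ Finset.range j, (x i).1

/-- `Δ_n` = 1 if the excursion `(τ_j, τ_{j+1}]` containing `n` is negative (its sign is `true`),
and 0 otherwise -/
noncomputable def Delta (x : ℕ → ℕ × Bool) (n : ℕ) : ℝ :=
  ∑ j ∈ Finset.range n, if tau x j < n ∧ n ≤ tau x (j + 1) ∧ (x j).2 = true then 1 else 0

/-- the copolymer partition function `Z_{N,ω}` at parameters `(λ, h)` -/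
noncomputable def Z (κ : PMF ℕ) (lam h : ℝ) (N : ℕ) (ω : ℕ → ℝ) : ℝ :=
  ∫ x, Real.exp (-2 * lam * ∑ n ∈ Finset.Icc 1 N, Delta x n * (ω n + h)) ∂(pathMeasure κ)

/-- i.i.d. standard Gaussian charges (the coordinates `1, 2, ...` are used) -/
noncomputable def disorder : Measure (ℕ → ℝ) :=
  Measure.infinitePi (fun _ : ℕ => gaussianReal 0 1)

/-- `N⁻¹ E log Z_N` -/
noncomputable def feN (κ : PMF ℕ) (lam h : ℝ) (N : ℕ) : ℝ :=
  (N : ℝ)⁻¹ * ∫ ω, Real.log (Z κ lam h N ω) ∂disorder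

/-- the free energy `f(λ,h)` -/
noncomputable def freeEnergy (κ : PMF ℕ) (lam h : ℝ) : ℝ :=
  limUnder atTop (feN κ lam h)

/-- the critical point `h_c(λ) = sup {h : f(λ,h) > 0}` -/
noncomputable def hc (κ : PMF ℕ) (lam : ℝ) : ℝ := sSup {h : ℝ | 0 < freeEnergy κ lam h}

theorem freeEnergy_eq (κ : PMF ℕ) (lam h : ℝ) :
    freeEnergy κ lam h = Cop764.freeEnergy κ (gaussianReal 0 1) lam h := rfl

theorem main (κ : PMF ℕ) (hκ0 : κ 0 = 0) (α cK : ℝ) (hα : 0 < α) (hcK : 0 < cK)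
    (htail : Tendsto (fun n : ℕ => (n : ℝ) ^ (1 + α) * (κ n).toReal) atTop (𝓝 cK)) :
    (∀ lam, 0 < lam → ∀ h,
      (∀ᶠ N in atTop, Integrable (fun ω => Real.log (Z κ lam h N ω)) disorder) ∧
      Tendsto (feN κ lam h) atTop (𝓝 (freeEnergy κ lam h))) ∧
    (∀ lam, 0 < lam → 0 < hc κ lam ∧ ∀ h, (0 < freeEnergy κ lam h ↔ h < hc κ lam)) ∧
    ∃ lam γ C : ℝ, 0 < lam ∧ 2 < γ ∧
      ∀ δ, 0 < δ → δ < 1 → freeEnergy κ lam (hc κ lam - δ) ≤ C * δ ^ γ := by
  set k : H98G.Ker := ⟨κ, hκ0, α, cK, hα, hcK, htail⟩ with hk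
  -- positivity of the free energy characterises `h < h_c`
  have hfull := fun lam (hlam : 0 < lam) => k.full lam hlam
  have hcrit : ∀ lam (hlam : 0 < lam), ∃ c, 0 < c ∧ (∀ h, 0 < freeEnergy κ lam h ↔ h < c) ∧
      hc κ lam = c ∧ c = (Cop764.M_hc.J_hc (k.D lam hlam)).choose := by
    intro lam hlam
    set c := (Cop764.M_hc.J_hc (k.D lam hlam)).choose with hc'
    have hspec := (Cop764.M_hc.J_hc (k.D lam hlam)).choose_spec
    rw [← hc'] at hspec
    have h1 : ∀ h, 0 < freeEnergy κ lam h ↔ h < c := by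
      intro h
      rcases le_or_gt 0 h with hh | hh
      · exact hspec.2.1 h hh
      · refine ⟨fun _ => by linarith [hspec.1], fun _ => ?_⟩
        have h2 := (hfull lam hlam).2.2 (-h) (by linarith)
        rw [neg_neg] at h2
        rw [freeEnergy_eq]
        have h3 : Cop764.freeEnergy κ (gaussianReal 0 1) lam h =
          2 * lam * (-h) + Cop764.freeEnergy κ (gaussianReal 0 1) lam (-h) := h2
        have h4 : 0 ≤ Cop764.freeEnergy κ (gaussianReal 0 1) lam (-h) :=
          Cop764.M_fnn.J_fnn (k.D lam hlam) (-h) (by linarith)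
        rw [h3]
        have : 0 < 2 * lam * (-h) := by apply mul_pos (by positivity); linarith
        linarith
    refine ⟨c, hspec.1, h1, ?_, rfl⟩
    unfold hc
    have : {h : ℝ | 0 < freeEnergy κ lam h} = Set.Iio c := by
      ext h
      exact h1 h
    rw [this, csSup_Iio]
  refine ⟨fun lam hlam h => ⟨(hfull lam hlam).1 h, (hfull lam hlam).2.1 h⟩,
    fun lam hlam => ?_, ?_⟩
  · obtain ⟨c, hc0, h1, h2, -⟩ := hcrit lam hlam
    rw [h2]
    exact ⟨hc0, h1⟩
  · obtain ⟨b, hb, γ, B, δ0, hγ, hB, hδ0, hmain⟩ := k.exponent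
    have hlam : 0 < b / 2 := half_pos hb
    obtain ⟨c, hc0, h1, h2, h3⟩ := hcrit (b / 2) hlam
    have hcb : k.hc b hb = c := by rw [h3]; rfl
    have hvc : k.vc b = -b * c := by rw [k.vc_eq b hb, hcb]
    -- the bound near the critical point
    have hnear : ∀ δ, 0 < δ → b * δ ≤ δ0 → freeEnergy κ (b / 2) (c - δ) ≤ B * (b * δ) ^ γ := by
      intro δ hδ hbδ
      have h4 := hmain (b * δ) (by positivity) hbδ
      have h5 : k.Fv b hb (k.vc b + b * δ) = freeEnergy κ (b / 2) (c - δ) := by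
        unfold H98G.Ker.Fv
        rw [hvc]
        have : -(-b * c + b * δ) / b = c - δ := by field_simp; ring
        rw [this]
        rfl
      rw [← h5]
      exact h4
    -- global bound
    have hglob : ∀ δ, 0 < δ → δ < 1 → freeEnergy κ (b / 2) (c - δ) ≤ freeEnergy κ (b / 2) 0 + b := by
      intro δ hδ hδ1
      rcases le_or_gt 0 (c - δ) with hh | hh
      · have := (Cop764.M_fanti.J_fanti (k.D (b / 2) hlam) 0 (c - δ) le_rfl hh).1
        have h6 : freeEnergy κ (b / 2) (c - δ) ≤ freeEnergy κ (b / 2) 0 := this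
        linarith
      · have h7 := (hfull (b / 2) hlam).2.2 (-(c - δ)) (by linarith)
        rw [neg_neg] at h7
        have h8 : freeEnergy κ (b / 2) (c - δ) =
            2 * (b / 2) * (-(c - δ)) + freeEnergy κ (b / 2) (-(c - δ)) := h7
        have h9 : freeEnergy κ (b / 2) (-(c - δ)) ≤ freeEnergy κ (b / 2) 0 :=
          (Cop764.M_fanti.J_fanti (k.D (b / 2) hlam) 0 (-(c - δ)) le_rfl (by linarith)).1
        rw [h8]
        have h10 : -(c - δ) ≤ 1 := by linarith
        nlinarith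
    have hf0 : 0 ≤ freeEnergy κ (b / 2) 0 := Cop764.M_fnn.J_fnn (k.D (b / 2) hlam) 0 le_rfl
    have hγ0 : 0 < γ := by linarith
    refine ⟨b / 2, γ, B * b ^ γ + (freeEnergy κ (b / 2) 0 + b) / (δ0 / b) ^ γ, hlam, hγ, ?_⟩
    intro δ hδ hδ1
    rw [h2]
    have hd0 : 0 < δ0 / b := by positivity
    rcases le_or_gt (b * δ) δ0 with hh | hh
    · have h4 := hnear δ hδ hh
      rw [Real.mul_rpow hb.le hδ.le] at h4
      have h5 : 0 ≤ (freeEnergy κ (b / 2) 0 + b) / (δ0 / b) ^ γ * δ ^ γ := by positivity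
      calc _ ≤ _ := h4
        _ ≤ B * b ^ γ * δ ^ γ + (freeEnergy κ (b / 2) 0 + b) / (δ0 / b) ^ γ * δ ^ γ := by linarith
        _ = _ := by ring
    · have h4 := hglob δ hδ hδ1
      have h5 : δ0 / b ≤ δ := by rw [div_le_iff₀ hb]; linarith
      have h6 : (δ0 / b) ^ γ ≤ δ ^ γ := Real.rpow_le_rpow hd0.le h5 hγ0.le
      have h7 : freeEnergy κ (b / 2) 0 + b ≤
          (freeEnergy κ (b / 2) 0 + b) / (δ0 / b) ^ γ * δ ^ γ := by
        rw [div_mul_eq_mul_div, le_div_iff₀ (by positivity)]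
        exact mul_le_mul_of_nonneg_left h6 (by linarith)
      have h8 : 0 ≤ B * b ^ γ * δ ^ γ := by positivity
      calc _ ≤ _ := h4
        _ ≤ B * b ^ γ * δ ^ γ + (freeEnergy κ (b / 2) 0 + b) / (δ0 / b) ^ γ * δ ^ γ := by linarith
        _ = _ := by ring

/-- **The smoothing exponent at the copolymer transition exceeds two** (standard Gaussian charges,
all excursion laws of the model).

Let `κ` be a probability law on the positive integers with `n^{1+α} κ(n) → cK > 0`, `α > 0`.  Then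
* for all `λ > 0` and `h ∈ ℝ`, `log Z_N` is integrable for large `N` and the limit defining the
  free energy exists;
* for all `λ > 0`, `0 < h_c(λ)` and `f(λ,h) > 0` iff `h < h_c(λ)`;
* for some `λ > 0` there are `γ > 2` and `C` with `f(λ, h_c(λ) - δ) ≤ C δ^γ` for all
  `δ ∈ (0,1)`. -/
theorem result (κ : PMF ℕ) (α cK : ℝ) (hκ0 : κ 0 = 0) (hα : 0 < α) (hcK : 0 < cK)
    (htail : Tendsto (fun n : ℕ => (n : ℝ) ^ (1 + α) * (κ n).toReal) atTop (𝓝 cK)) :
    (∀ lam, 0 < lam → ∀ h,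
      (∀ᶠ N in atTop, Integrable (fun ω => Real.log (Z κ lam h N ω)) disorder) ∧
      Tendsto (feN κ lam h) atTop (𝓝 (freeEnergy κ lam h))) ∧
    (∀ lam, 0 < lam → 0 < hc κ lam ∧ ∀ h, (0 < freeEnergy κ lam h ↔ h < hc κ lam)) ∧
    ∃ lam γ C : ℝ, 0 < lam ∧ 2 < γ ∧
      ∀ δ, 0 < δ → δ < 1 → freeEnergy κ lam (hc κ lam - δ) ≤ C * δ ^ γ :=
  main κ hκ0 α cK hα hcK htail

end Pool.Agent.Results.MP_fd21e9_pr.GaussianSmoothing
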